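import Mathlib
import Pool.Agent.N242.PC.Stm

set_option autoImplicit false

open Metric Set Filter Topology

/-!
# Project PC (helper242), part SET: separation of two tiles
-/

namespace Pool.Agent.N559.PC

open Pool.Agent.N242.PC

universe u

theorem t_SET : S_SET.{u} := by
  intro X _ _ 𝒯 hT S hS T hTT hne
  have hdis : Disjoint (interior S) (interior T) := hT.dis hS hTT hne
  obtain ⟨f, β, h1, h2⟩ := geometric_hahn_banach_open_open (hT.convex S hS).interior isOpen_interior
    (hT.convex T hTT).interior isOpen_interior hdis
  refine ⟨f, β, ?_, ?_, h1, h2⟩
  · intro x hx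
    have hx' : x ∈ closure (interior S) := by
      rw [(hT.convex S hS).closure_interior_eq_closure_of_nonempty_interior (hT.int S hS)]
      exact subset_closure hx
    have hcl : IsClosed {y : X | f y ≤ β} := isClosed_le f.continuous continuous_const
    exact (hcl.closure_subset_iff.2 (fun y hy => (h1 y hy).le)) hx'
  · intro x hx
    have hx' : x ∈ closure (interior T) := by
      rw [(hT.convex T hTT).closure_interior_eq_closure_of_nonempty_interior (hT.int T hTT)]
      exact subset_closure hx
    have hcl : IsClosed {y : X | β ≤ f y} := isClosed_le continuous_const f.continuous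
    exact (hcl.closure_subset_iff.2 (fun y hy => (h2 y hy).le)) hx'

end Pool.Agent.N559.PC
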